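import Pool.Agent.STR.Defs

/-!
# Squad STR: the statements of the modules
-/

set_option autoImplicit false

namespace Pool.Agent.STR

open Finset

/-- DUAL: an optimal matching has an integral potential (Hall's theorem). -/
def DualStmt : Prop := ∀ (X α : Type) [Fintype X] [DecidableEq X] [Fintype α] [DecidableEq α]
  (p q : X → (α → Bool)), ∃ (σ : Equiv.Perm X) (h : (α → Bool) → ℝ), Lip h ∧
    ∑ x, (hammingDist (p x) (q (σ x)) : ℝ) ≤ ∑ x, h (q x) - ∑ x, h (p x)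

/-- NOI: elementary properties of the noise operator. -/
def NoiStmt : Prop := ∀ (α : Type) [Fintype α] [DecidableEq α] (ρ : ℝ) (F : (α → Bool) → ℝ) (a b : ℝ),
  0 ≤ ρ → ρ ≤ 1 → (∀ x, a ≤ F x) → (∀ x, F x ≤ b) →
    (∀ x, a ≤ T ρ F x ∧ T ρ F x ≤ b) ∧ av (T ρ F) = av F ∧ ∀ x, T 0 F x = av F

/-- POI: noise changes the integral of a Lipschitz function by little. -/
def PoiStmt : Prop := ∀ (α : Type) [Fintype α] [DecidableEq α] (ρ : ℝ) (F h : (α → Bool) → ℝ),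
  0 ≤ ρ → ρ ≤ 1 → Lip h →
    |av (fun x => F x * h x) - av (fun x => T ρ F x * h x)| ≤
      Real.sqrt (av fun x => F x ^ 2) * Real.sqrt ((1 - ρ) * Fintype.card α) / 2

/-- BES: Bessel's inequality for the first and second differences of `T ρ F`, at every point. -/
def BesStmt : Prop := ∀ (α : Type) [Fintype α] [DecidableEq α] (ρ : ℝ) (F : (α → Bool) → ℝ) (M : ℝ),
  0 ≤ ρ → ρ < 1 → (∀ x, |F x| ≤ M) → ∀ x,
    ∑ i, (T ρ F (fl x i) - T ρ F x) ^ 2 ≤ 4 * ρ ^ 2 / (1 - ρ ^ 2) * M ^ 2 ∧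
    ∑ i, ∑ j ∈ univ.erase i,
        (T ρ F (fl (fl x i) j) - T ρ F (fl x i) - T ρ F (fl x j) + T ρ F x) ^ 2 ≤
      2 * (4 * ρ ^ 2 / (1 - ρ ^ 2)) ^ 2 * M ^ 2

/-- POT: the potential, with dimension-free bounds at every point. -/
def PotStmt : Prop := ∀ (α : Type) [Fintype α] [DecidableEq α] (ρ : ℝ) (F : (α → Bool) → ℝ),
  0 < ρ → ρ < 1 → (∀ x, |F x| ≤ 2) → ∃ u : (α → Bool) → ℝ,
    (∀ x, ∑ j, (u x - u (fl x j)) / 2 = T ρ F x - av F) ∧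
    (∀ x, ∑ j, (u (fl x j) - u x) ^ 2 ≤ (12 / (1 - ρ)) ^ 2) ∧
    (∀ x, ∑ j, (T ρ F (fl x j) - T ρ F x) ^ 2 ≤ (12 / (1 - ρ)) ^ 2) ∧
    (∀ x, ∑ i, ∑ j ∈ univ.erase i, (u (fl (fl x i) j) - u (fl x i) - u (fl x j) + u x) ^ 2 ≤
      (12 / (1 - ρ)) ^ 2)

/-- COH: coherence (path coupling in `ℓ²` over the directions). -/
def CohStmt : Prop := ∀ (α : Type) [Fintype α] [DecidableEq α] (Q K : ℕ)
  (a : ℕ → α → (α → Bool) → ℕ) (b : ℝ), 0 < Q → 0 ≤ b → (∀ k j x, a k j x ≤ Q) →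
  (∀ k j x, a k j x = 0 ∨ a k j (fl x j) = 0) →
  (∀ k < K, ∀ x, ∑ i, ∑ j ∈ univ.erase i, (((a k j x : ℝ) - a k j (fl x i)) / Q) ^ 2 ≤
    (Fintype.card α * b) ^ 2) →
  ∀ x, av (fun ω : Fin K → α × Fin Q =>
      ∑ i, (hammingDist (run a K ω x) (run a K ω (fl x i)) : ℝ)) ≤
    Fintype.card α * (1 + b) ^ K

/-- MOV: the expected number of changes. -/
def MovStmt : Prop := ∀ (α : Type) [Fintype α] [DecidableEq α] [Nonempty α] (Q K : ℕ)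
  (a : ℕ → α → (α → Bool) → ℕ) (c : ℝ), 0 < Q → 0 ≤ c → (∀ k j x, a k j x ≤ Q) →
  (∀ k < K, ∀ x, ∑ j, (a k j x : ℝ) / Q ≤ Fintype.card α * c) →
  ∀ x, av (fun ω : Fin K → α × Fin Q => (hammingDist x (run a K ω x) : ℝ)) ≤ K * c

/-- PRE: the second moment of the number of preimages. -/
def PreStmt : Prop := ∀ (α : Type) [Fintype α] [DecidableEq α] [Nonempty α] (Q K : ℕ)
  (a : ℕ → α → (α → Bool) → ℕ) (c : ℝ), 0 < Q → 0 ≤ c → (∀ k j x, a k j x ≤ Q) →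
  (∀ k < K, ∀ y, ∑ j, (a k j (fl y j) : ℝ) / Q ≤ Fintype.card α * c) →
  ∀ y, av (fun ω : Fin K → α × Fin Q => (cnt (run a K ω) y : ℝ) ^ 2) ≤ (1 + 3 * c) ^ K

/-- LAW: the mean number of preimages follows the prescribed densities. -/
def LawStmt : Prop := ∀ (α : Type) [Fintype α] [DecidableEq α] [Nonempty α] (Q K : ℕ)
  (a : ℕ → α → (α → Bool) → ℕ) (p : ℕ → α → (α → Bool) → ℝ) (g : ℕ → (α → Bool) → ℝ), 0 < Q →
  (∀ k j x, a k j x ≤ Q) → (∀ y, g 0 y = 1) → (∀ k ≤ K, ∀ y, 0 ≤ g k y ∧ g k y ≤ 2) →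
  (∀ k < K, ∀ y, g (k + 1) y = g k y - (∑ j, p k j y) * g k y / Fintype.card α +
    (∑ j, p k j (fl y j) * g k (fl y j)) / Fintype.card α) →
  (∀ k < K, ∀ j y, |(a k j y : ℝ) / Q - p k j y| ≤ 1 / Q) →
  ∀ y, |av (fun ω : Fin K → α × Fin Q => (cnt (run a K ω) y : ℝ)) - g K y| ≤ 2 ^ K * 4 / Q

/-- CHN: the random map. -/
def ChnStmt : Prop := ∀ (α : Type) [Fintype α] [DecidableEq α] [Nonempty α] (e C : ℝ)
  (g u : (α → Bool) → ℝ), 0 < e → e ≤ 1 → 1 ≤ C → (∀ x, e ≤ g x ∧ g x ≤ 2) →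
  (∀ x, ∑ j, (u x - u (fl x j)) / 2 = g x - 1) →
  (∀ x, ∑ j, (u (fl x j) - u x) ^ 2 ≤ C ^ 2) →
  (∀ x, ∑ j, (g (fl x j) - g x) ^ 2 ≤ C ^ 2) →
  (∀ x, ∑ i, ∑ j ∈ univ.erase i, (u (fl (fl x i) j) - u (fl x i) - u (fl x j) + u x) ^ 2 ≤ C ^ 2) →
  ∀ τ : ℝ, 0 < τ → ∃ (Ω : Type) (_ : Fintype Ω) (_ : Nonempty Ω)
    (Φ : Ω → (α → Bool) → (α → Bool)),
    (∀ x, av (fun ω => ∑ i, (hammingDist (Φ ω x) (Φ ω (fl x i)) : ℝ)) ≤
      Fintype.card α * Real.exp (C / e + C ^ 2 / e ^ 2)) ∧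
    (∀ x, av (fun ω => (hammingDist x (Φ ω x) : ℝ)) ≤ C / e * Real.sqrt (Fintype.card α)) ∧
    (∀ y, av (fun ω => (cnt (Φ ω) y : ℝ) ^ 2) ≤ Real.exp (3 * C / e * Real.sqrt (Fintype.card α))) ∧
    (∀ y, |av (fun ω => (cnt (Φ ω) y : ℝ)) - g y| ≤ τ)

/-- LLN1: the mean of the mean square error. -/
def Lln1Stmt : Prop := ∀ (α β Ω : Type) [Fintype α] [DecidableEq α] [Fintype β] [DecidableEq β]
  [Fintype Ω] [Nonempty Ω] (Φ : Ω → (α → Bool) → (α → Bool)) (g : (α → Bool) → ℝ) (r : ℕ)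
  (m τ : ℝ), r ≤ Fintype.card β → 0 ≤ τ →
  (∀ y, av (fun ω => (cnt (Φ ω) y : ℝ) ^ 2) ≤ m) →
  (∀ y, |av (fun ω => (cnt (Φ ω) y : ℝ)) - g y| ≤ τ) →
  av (fun ω : (β → Bool) → Ω => err Φ g r ω) ≤ m / (Fintype.card β).choose r + τ ^ 2

/-- LLN2: the law of the map with seeds `ω z` is close to the density `g`. -/
def Lln2Stmt : Prop := ∀ (α β Ω : Type) [Fintype α] [DecidableEq α] [Fintype β] [DecidableEq β]
  (Φ : Ω → (α → Bool) → (α → Bool)) (g : (α → Bool) → ℝ) (r : ℕ) (ω : (β → Bool) → Ω)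
  (h : (α ⊕ β → Bool) → ℝ), r ≤ Fintype.card β → av g = 1 → Lip h →
  |av (fun p : (α → Bool) × (β → Bool) => h (Sum.elim (Φ (ω p.2) p.1) p.2)) -
    av (fun p : (α → Bool) × (β → Bool) => g p.1 * h (Sum.elim p.1 p.2))| ≤
    r + Real.sqrt (err Φ g r ω) * Real.sqrt (Fintype.card α + Fintype.card β) / 2

/-- TGT: the uniform law on `A` is close to the smoothed density. -/
def TgtStmt : Prop := ∀ (α β : Type) [Fintype α] [DecidableEq α] [Fintype β] [DecidableEq β]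
  [Nonempty (α ⊕ β)] (A : Finset (α ⊕ β → Bool)) (e ρ : ℝ) (h : (α ⊕ β → Bool) → ℝ), 0 < e → e ≤ 1 → 0 ≤ ρ →
  ρ ≤ 1 → 2 * A.card = Fintype.card (α ⊕ β → Bool) → Lip h →
  |(∑ x ∈ A, h x) / A.card -
    av (fun p : (α → Bool) × (β → Bool) => T ρ (mar (den e A)) p.1 * h (Sum.elim p.1 p.2))| ≤
    e * Real.sqrt (Fintype.card α + Fintype.card β) / 2 + Real.sqrt (Fintype.card β) +
      Real.sqrt ((1 - ρ) * Fintype.card α)

/-- The map of the domain, given the seeds. -/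
def phi0 {α β Ω : Type} (Φ : Ω → (α → Bool) → (α → Bool)) (ω : (β → Bool) → Ω)
    (x : α ⊕ β → Bool) : α ⊕ (β ⊕ Unit) → Bool :=
  Sum.elim (Φ (ω fun b => x (Sum.inr b)) fun a => x (Sum.inl a))
    (Sum.elim (fun b => x (Sum.inr b)) fun _ => false)

/-- SBD: the mean stretch of the map `phi0`. -/
def SbdStmt : Prop := ∀ (α β Ω : Type) [Fintype α] [DecidableEq α] [Fintype β] [DecidableEq β]
  [Fintype Ω] [Nonempty Ω] (Φ : Ω → (α → Bool) → (α → Bool)) (L c : ℝ),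
  (∀ x, av (fun ω => ∑ i, (hammingDist (Φ ω x) (Φ ω (fl x i)) : ℝ)) ≤ Fintype.card α * L) →
  (∀ x, av (fun ω => (hammingDist x (Φ ω x) : ℝ)) ≤ c) →
  av (fun ω : (β → Bool) → Ω => av fun x : α ⊕ β → Bool =>
      ∑ i, (hammingDist (phi0 Φ ω x) (phi0 Φ ω (fl x i)) : ℝ)) ≤
    Fintype.card α * L + Fintype.card β * (1 + 2 * c)

/-- MAT: from a map to a bijection. -/
def MatStmt : Prop := ∀ (γ δ : Type) [Fintype γ] [DecidableEq γ] [Fintype δ] [DecidableEq δ]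
  (A : Finset (δ → Bool)) (f : (γ → Bool) → (δ → Bool)) (D : ℝ),
  A.card = Fintype.card (γ → Bool) →
  (∀ h : (δ → Bool) → ℝ, Lip h → (∑ x ∈ A, h x) / A.card - av (fun x => h (f x)) ≤ D) →
  ∃ φ : (γ → Bool) ≃ A,
    av (fun x => ∑ i, (hammingDist (φ x).1 (φ (fl x i)).1 : ℝ)) ≤
      av (fun x => ∑ i, (hammingDist (f x) (f (fl x i)) : ℝ)) + 2 * Fintype.card γ * D

/-- MIX: the main inequality. -/
def MixStmt : Prop := ∀ (α β : Type) [Fintype α] [DecidableEq α] [Fintype β] [DecidableEq β]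
  [Nonempty α] (A : Finset (α ⊕ (β ⊕ Unit) → Bool)) (e ρ : ℝ) (r : ℕ), 0 < e → e ≤ 1 → 0 < ρ → ρ < 1 →
  r ≤ Fintype.card β → A.card = Fintype.card (α ⊕ β → Bool) →
  ∃ φ : (α ⊕ β → Bool) ≃ A,
    av (fun x => ∑ i, (hammingDist (φ x).1 (φ (fl x i)).1 : ℝ)) ≤
      (Fintype.card α + Fintype.card β) *
        (Real.exp (12 / (1 - ρ) / e + (12 / (1 - ρ)) ^ 2 / e ^ 2) + 1 + 2 * (1 + r) +
          e * Real.sqrt (Fintype.card α + Fintype.card β + 1) +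
          2 * Real.sqrt (Fintype.card β + 1) + 2 * Real.sqrt ((1 - ρ) * Fintype.card α) +
          Real.sqrt (Real.exp (3 * (12 / (1 - ρ)) / e * Real.sqrt (Fintype.card α)) /
            (Fintype.card β).choose r + 1 / (Fintype.card α + Fintype.card β)) *
            Real.sqrt (Fintype.card α + Fintype.card β)) +
        Fintype.card β * (2 * (12 / (1 - ρ) / e * Real.sqrt (Fintype.card α)))

/-- NUM: the numbers. -/
def NumStmt : Prop := ∀ ε : ℝ, 0 < ε → ∃ (e ρ : ℝ) (N : ℕ) (b r : ℕ → ℕ), 0 < e ∧ e ≤ 1 ∧ 0 < ρ ∧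
  ρ < 1 ∧ ∀ n : ℕ, N ≤ n → 1 ≤ b n ∧ b n < n ∧ r n ≤ b n ∧
    n * (Real.exp (12 / (1 - ρ) / e + (12 / (1 - ρ)) ^ 2 / e ^ 2) + 1 + 2 * (1 + r n) +
          e * Real.sqrt (n + 1) + 2 * Real.sqrt (b n + 1) + 2 * Real.sqrt ((1 - ρ) * n) +
          Real.sqrt (Real.exp (3 * (12 / (1 - ρ)) / e * Real.sqrt n) / (b n).choose (r n) + 1 / n) *
            Real.sqrt n) +
        b n * (2 * (12 / (1 - ρ) / e * Real.sqrt n)) ≤ n * (ε * Real.sqrt n)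

/-- TOP: the frozen statement (S07083). -/
def TopStmt : Prop := ∀ ε : ℝ, 0 < ε → ∃ N : ℕ, ∀ n : ℕ, N ≤ n →
  ∀ A : Finset (Fin (n + 1) → Bool), A.card = 2 ^ n →
    ∃ φ : (Fin n → Bool) ≃ A,
      (∑ x : Fin n → Bool, ∑ i : Fin n,
          (hammingDist (φ x).1 (φ (Function.update x i (!x i))).1 : ℝ))
        / ((n : ℝ) * 2 ^ n) ≤ ε * Real.sqrt n

end Pool.Agent.STR
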