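import Mathlib

/-!
# Squad STR: average stretch of half-density sets of the cube (MP_0a0262_co, S07083)

Definitions.
-/

set_option autoImplicit false

namespace Pool.Agent.STR

open Finset

/-- The average of a function on a finite type. -/
noncomputable def av {Ω : Type} [Fintype Ω] (f : Ω → ℝ) : ℝ := (∑ ω, f ω) / Fintype.card Ω

/-- The point `x` with the coordinate `i` changed. -/
def fl {α : Type} [DecidableEq α] (x : α → Bool) (i : α) : α → Bool := Function.update x i (!x i)

/-- The point `x` with the coordinates in `R` changed. -/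
def flS {α : Type} [DecidableEq α] (x : α → Bool) (R : Finset α) : α → Bool :=
  fun i => if i ∈ R then !x i else x i

/-- `h` changes by at most one if a coordinate is changed. -/
def Lip {α : Type} [DecidableEq α] (h : (α → Bool) → ℝ) : Prop := ∀ x i, |h (fl x i) - h x| ≤ 1

/-- `1` if the bits agree, `-1` otherwise. -/
def chi (a b : Bool) : ℝ := if a = b then 1 else -1

/-- The noise operator `T ρ`. -/
noncomputable def T {α : Type} [Fintype α] [DecidableEq α] (ρ : ℝ) (F : (α → Bool) → ℝ)
    (x : α → Bool) : ℝ :=
  ∑ y, (∏ i, (1 + ρ * chi (x i) (y i)) / 2) * F y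

/-- One step of the chain: with the seed `s = (j, U)` the coordinate `j` is changed if `U` is below
the threshold `a j x`. -/
def step {α : Type} [DecidableEq α] {Q : ℕ} (a : α → (α → Bool) → ℕ) (s : α × Fin Q)
    (x : α → Bool) : α → Bool :=
  if (s.2 : ℕ) < a s.1 x then fl x s.1 else x

/-- The first `K` steps of the chain with thresholds `a 0, a 1, ...` and the seeds `ω`. -/
def run {α : Type} [DecidableEq α] {Q : ℕ} (a : ℕ → α → (α → Bool) → ℕ) :
    (K : ℕ) → (Fin K → α × Fin Q) → (α → Bool) → (α → Bool)
  | 0, _, x => x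
  | K + 1, ω, x => step (a K) (ω (Fin.last K)) (run a K (fun k => ω k.castSucc) x)

/-- The number of preimages of `y`. -/
def cnt {α : Type} [Fintype α] [DecidableEq α] (f : (α → Bool) → (α → Bool)) (y : α → Bool) : ℕ :=
  (univ.filter fun x => f x = y).card

/-- The smoothed number of preimages: average over the changes of exactly `r` coordinates of `z`. -/
noncomputable def smo {α β Ω : Type} [Fintype α] [DecidableEq α] [Fintype β] [DecidableEq β]
    (Φ : Ω → (α → Bool) → (α → Bool)) (r : ℕ) (ω : (β → Bool) → Ω) (y : α → Bool)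
    (z : β → Bool) : ℝ :=
  (∑ R ∈ powersetCard r (univ : Finset β), (cnt (Φ (ω (flS z R))) y : ℝ)) /
    (Fintype.card β).choose r

/-- The mean square error of the smoothed number of preimages. -/
noncomputable def err {α β Ω : Type} [Fintype α] [DecidableEq α] [Fintype β] [DecidableEq β]
    (Φ : Ω → (α → Bool) → (α → Bool)) (g : (α → Bool) → ℝ) (r : ℕ) (ω : (β → Bool) → Ω) : ℝ :=
  av fun p : (α → Bool) × (β → Bool) => (smo Φ r ω p.1 p.2 - g p.1) ^ 2

/-- The density `2 (1 - e) 1_A + e`. -/
noncomputable def den {γ : Type} [DecidableEq γ] (e : ℝ) (A : Finset γ) (x : γ) : ℝ :=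
  (if x ∈ A then 2 * (1 - e) else 0) + e

/-- The average over the second group of coordinates. -/
noncomputable def mar {α β : Type} [Fintype β] [DecidableEq β] (F : (α ⊕ β → Bool) → ℝ)
    (y : α → Bool) : ℝ :=
  av fun z : β → Bool => F (Sum.elim y z)

end Pool.Agent.STR
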