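import Pool.Agent.STR.Defs

/-!
# Squad STR: tools (averages, flips, runs)
-/

set_option autoImplicit false
set_option linter.unusedSectionVars false

namespace Pool.Agent.STR

open Finset

section Av

variable {Ω Ω' : Type} [Fintype Ω] [Fintype Ω']

lemma av_def (f : Ω → ℝ) : av f = (∑ ω, f ω) / Fintype.card Ω := rfl

lemma av_congr {f g : Ω → ℝ} (h : ∀ ω, f ω = g ω) : av f = av g := by
  rw [show f = g from funext h]

lemma av_add (f g : Ω → ℝ) : av (fun ω => f ω + g ω) = av f + av g := by
  unfold av; rw [sum_add_distrib, add_div]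

lemma av_sub (f g : Ω → ℝ) : av (fun ω => f ω - g ω) = av f - av g := by
  unfold av; rw [sum_sub_distrib, sub_div]

lemma av_neg (f : Ω → ℝ) : av (fun ω => - f ω) = - av f := by
  unfold av; rw [sum_neg_distrib, neg_div]

lemma av_mul_left (c : ℝ) (f : Ω → ℝ) : av (fun ω => c * f ω) = c * av f := by
  unfold av; rw [← mul_sum, mul_div_assoc]

lemma av_mul_right (c : ℝ) (f : Ω → ℝ) : av (fun ω => f ω * c) = av f * c := by
  unfold av; rw [← sum_mul]; ring

lemma av_div (c : ℝ) (f : Ω → ℝ) : av (fun ω => f ω / c) = av f / c := by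
  unfold av; rw [← sum_div]; ring

lemma av_sum {ι : Type} (s : Finset ι) (f : ι → Ω → ℝ) :
    av (fun ω => ∑ i ∈ s, f i ω) = ∑ i ∈ s, av (f i) := by
  unfold av; rw [sum_comm, sum_div]

lemma av_zero : av (fun _ : Ω => (0 : ℝ)) = 0 := by
  unfold av; simp

lemma card_pos' [Nonempty Ω] : (0 : ℝ) < Fintype.card Ω := by
  exact_mod_cast Fintype.card_pos

lemma av_const [Nonempty Ω] (c : ℝ) : av (fun _ : Ω => c) = c := by
  have := card_pos' (Ω := Ω)
  unfold av
  rw [sum_const, nsmul_eq_mul, card_univ]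
  field_simp

lemma av_mono {f g : Ω → ℝ} (h : ∀ ω, f ω ≤ g ω) : av f ≤ av g :=
  div_le_div_of_nonneg_right (sum_le_sum fun ω _ => h ω) (Nat.cast_nonneg _)

lemma av_nonneg {f : Ω → ℝ} (h : ∀ ω, 0 ≤ f ω) : 0 ≤ av f :=
  div_nonneg (sum_nonneg fun ω _ => h ω) (Nat.cast_nonneg _)

lemma av_le [Nonempty Ω] {f : Ω → ℝ} {c : ℝ} (h : ∀ ω, f ω ≤ c) : av f ≤ c :=
  (av_mono h).trans (av_const c).le

lemma le_av [Nonempty Ω] {f : Ω → ℝ} {c : ℝ} (h : ∀ ω, c ≤ f ω) : c ≤ av f :=
  (av_const c).ge.trans (av_mono h)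

lemma abs_av_le (f : Ω → ℝ) : |av f| ≤ av (fun ω => |f ω|) := by
  unfold av
  rw [abs_div, Nat.abs_cast]
  exact div_le_div_of_nonneg_right (abs_sum_le_sum_abs _ _) (Nat.cast_nonneg _)

lemma abs_av_le_of {f : Ω → ℝ} {c : ℝ} (hc : 0 ≤ c) (h : ∀ ω, |f ω| ≤ c) : |av f| ≤ c := by
  by_cases hn : Nonempty Ω
  · exact (abs_av_le f).trans (av_le h)
  · have := not_nonempty_iff.1 hn
    unfold av
    simp [hc]

/-- The average is attained or passed from below. -/
lemma exists_le_av [Nonempty Ω] (f : Ω → ℝ) : ∃ ω, f ω ≤ av f := by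
  by_contra hcon
  push Not at hcon
  have h1 : ∑ _ω : Ω, av f < ∑ ω, f ω := sum_lt_sum_of_nonempty univ_nonempty fun ω _ => hcon ω
  have h2 := card_pos' (Ω := Ω)
  rw [sum_const, nsmul_eq_mul, card_univ] at h1
  have h3 : (Fintype.card Ω : ℝ) * av f = ∑ ω, f ω := by
    unfold av; field_simp
  linarith

lemma av_equiv (e : Ω ≃ Ω') (f : Ω' → ℝ) : av (fun ω => f (e ω)) = av f := by
  unfold av
  rw [Fintype.card_congr e, Equiv.sum_comp e f]

lemma av_prod (f : Ω × Ω' → ℝ) : av f = av fun ω => av fun ω' => f (ω, ω') := by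
  unfold av
  rw [Fintype.sum_prod_type, Fintype.card_prod, ← sum_div, div_div, Nat.cast_mul, mul_comm]

lemma av_prod' (f : Ω → Ω' → ℝ) :
    av (fun p : Ω × Ω' => f p.1 p.2) = av fun ω => av fun ω' => f ω ω' := av_prod _

lemma av_comm (f : Ω → Ω' → ℝ) :
    av (fun ω => av fun ω' => f ω ω') = av fun ω' => av fun ω => f ω ω' := by
  rw [← av_prod' f, ← av_prod' (fun ω' ω => f ω ω'), ← av_equiv (Equiv.prodComm Ω Ω')]
  rfl

/-- Cauchy-Schwarz. -/
lemma av_mul_sq_le (f g : Ω → ℝ) :
    (av fun ω => f ω * g ω) ^ 2 ≤ av (fun ω => f ω ^ 2) * av (fun ω => g ω ^ 2) := by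
  unfold av
  rw [div_pow, div_mul_div_comm, sq (Fintype.card Ω : ℝ)]
  exact div_le_div_of_nonneg_right (sum_mul_sq_le_sq_mul_sq _ _ _) (by positivity)

lemma sq_av_le (f : Ω → ℝ) : (av f) ^ 2 ≤ av (fun ω => f ω ^ 2) := by
  by_cases hn : Nonempty Ω
  · have h := av_mul_sq_le f (fun _ => 1)
    simp only [mul_one, one_pow, av_const] at h
    exact h
  · have := not_nonempty_iff.1 hn
    unfold av
    simp

lemma abs_av_mul_le (f g : Ω → ℝ) : |av fun ω => f ω * g ω| ≤
    Real.sqrt (av fun ω => f ω ^ 2) * Real.sqrt (av fun ω => g ω ^ 2) := by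
  rw [← Real.sqrt_mul (av_nonneg fun ω => sq_nonneg _)]
  exact Real.abs_le_sqrt (av_mul_sq_le f g)

lemma av_sqrt_le {f : Ω → ℝ} (h : ∀ ω, 0 ≤ f ω) :
    av (fun ω => Real.sqrt (f ω)) ≤ Real.sqrt (av f) := by
  apply Real.le_sqrt_of_sq_le
  refine (sq_av_le _).trans (le_of_eq (av_congr fun ω => ?_))
  exact Real.sq_sqrt (h ω)

/-- Fubini, the last seed. -/
lemma av_snoc {S : Type} [Fintype S] (K : ℕ) (f : (Fin (K + 1) → S) → ℝ) :
    av f = av fun ω : Fin K → S => av fun s => f (Fin.snoc (α := fun _ => S) ω s) := by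
  rw [← av_prod' (fun (ω : Fin K → S) (s : S) => f (Fin.snoc (α := fun _ => S) ω s)),
    ← av_equiv (Fin.snocEquiv fun _ : Fin (K + 1) => S) f]
  rw [← av_equiv (Equiv.prodComm S (Fin K → S))]
  rfl

/-- Fubini, the first seed. -/
lemma av_cons {S : Type} [Fintype S] (K : ℕ) (f : (Fin (K + 1) → S) → ℝ) :
    av f = av fun s => av fun ω : Fin K → S => f (Fin.cons (α := fun _ => S) s ω) := by
  rw [← av_prod' (fun (s : S) (ω : Fin K → S) => f (Fin.cons (α := fun _ => S) s ω)),
    ← av_equiv (Fin.consEquiv fun _ : Fin (K + 1) => S) f]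
  rfl

lemma av_eval {Z : Type} [Fintype Z] [DecidableEq Z] [Nonempty Ω] (z : Z) (f : Ω → ℝ) :
    av (fun ω : Z → Ω => f (ω z)) = av f := by
  have e := av_equiv (Equiv.funSplitAt z Ω) (fun p : Ω × ({ j // j ≠ z } → Ω) => f p.1)
  have e1 : av (fun ω : Z → Ω => f (ω z)) =
      av (fun ω => (fun p : Ω × ({ j // j ≠ z } → Ω) => f p.1) (Equiv.funSplitAt z Ω ω)) := by
    refine av_congr fun ω => ?_
    simp [Equiv.funSplitAt, Equiv.piSplitAt]
  rw [e1, e, av_prod]
  refine av_congr fun ω => ?_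
  show av (fun _ : { j // j ≠ z } → Ω => f ω) = f ω
  exact av_const (f ω)

/-- Independence of the values at two places. -/
lemma av_eval2 {Z : Type} [Fintype Z] [DecidableEq Z] [Nonempty Ω] {z z' : Z} (hz : z ≠ z')
    (f g : Ω → ℝ) : av (fun ω : Z → Ω => f (ω z) * g (ω z')) = av f * av g := by
  have e := av_equiv (Equiv.funSplitAt z Ω)
    (fun p : Ω × ({ j // j ≠ z } → Ω) => f p.1 * g (p.2 ⟨z', hz.symm⟩))
  have e1 : av (fun ω : Z → Ω => f (ω z) * g (ω z')) =
      av (fun ω => (fun p : Ω × ({ j // j ≠ z } → Ω) => f p.1 * g (p.2 ⟨z', hz.symm⟩))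
        (Equiv.funSplitAt z Ω ω)) := by
    refine av_congr fun ω => ?_
    simp [Equiv.funSplitAt, Equiv.piSplitAt]
  rw [e1, e, av_prod, ← av_mul_right]
  refine av_congr fun ω => ?_
  show av (fun ω' : { j // j ≠ z } → Ω => f ω * g (ω' ⟨z', hz.symm⟩)) = f ω * av g
  rw [av_mul_left, av_eval]

lemma av_bool (f : Bool → ℝ) : av f = (f false + f true) / 2 := by
  unfold av
  rw [Fintype.sum_bool, Fintype.card_bool]
  norm_num
  ring

/-- A threshold in `Fin Q`. -/
lemma av_lt {Q : ℕ} (hQ : 0 < Q) {a : ℕ} (ha : a ≤ Q) (c d : ℝ) :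
    av (fun U : Fin Q => if (U : ℕ) < a then c else d) = a / Q * c + (1 - a / Q) * d := by
  have hQ' : (0 : ℝ) < Q := by exact_mod_cast hQ
  have h1 : (univ.filter fun U : Fin Q => (U : ℕ) < a).card = a := by
    have h0 : (univ.filter fun U : Fin Q => (U : ℕ) < a).card =
        ((range Q).filter fun U => U < a).card := by
      rw [← Finset.card_map Fin.valEmbedding]
      congr 1
      ext U
      simp only [mem_map, mem_filter, mem_univ, true_and, Fin.valEmbedding_apply, mem_range]
      constructor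
      · rintro ⟨V, hV, rfl⟩
        exact ⟨V.2, hV⟩
      · rintro ⟨h1, h2⟩
        exact ⟨⟨U, h1⟩, h2, rfl⟩
    rw [h0]
    have h2 : (range Q).filter (fun U => U < a) = range a := by
      ext U
      simp only [mem_filter, mem_range]
      omega
    rw [h2, card_range]
  have h2 : ∀ U : Fin Q, (if (U : ℕ) < a then c else d) = d + (if (U : ℕ) < a then c - d else 0) := by
    intro U
    split_ifs <;> ring
  unfold av
  rw [sum_congr rfl fun U _ => h2 U, sum_add_distrib, sum_const, ← sum_filter, sum_const, h1,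
    card_univ, Fintype.card_fin, nsmul_eq_mul, nsmul_eq_mul]
  field_simp
  ring

end Av

section Flip

variable {α β : Type} [DecidableEq α] [DecidableEq β]

lemma fl_self (x : α → Bool) (i : α) : fl x i i = !x i := by simp [fl]

lemma fl_ne (x : α → Bool) {i j : α} (h : j ≠ i) : fl x i j = x j := by simp [fl, h]

lemma fl_apply (x : α → Bool) (i j : α) : fl x i j = if j = i then !x j else x j := by
  by_cases h : j = i
  · subst h; simp [fl_self]
  · rw [fl_ne x h, if_neg h]

@[simp] lemma fl_fl (x : α → Bool) (i : α) : fl (fl x i) i = x := by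
  ext j
  rw [fl_apply, fl_apply]
  split_ifs <;> simp

lemma fl_comm (x : α → Bool) (i j : α) : fl (fl x i) j = fl (fl x j) i := by
  ext l
  simp only [fl_apply]
  split_ifs <;> rfl

lemma fl_ne_self (x : α → Bool) (i : α) : fl x i ≠ x := by
  intro h
  have := congrFun h i
  rw [fl_self] at this
  cases hx : x i <;> rw [hx] at this <;> simp at this

/-- A flip is an involution. -/
def flE (i : α) : (α → Bool) ≃ (α → Bool) where
  toFun x := fl x i
  invFun x := fl x i
  left_inv x := fl_fl x i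
  right_inv x := fl_fl x i

lemma fl_inj {x y : α → Bool} {i : α} (h : fl x i = fl y i) : x = y := (flE i).injective h

lemma flS_apply (x : α → Bool) (R : Finset α) (j : α) :
    flS x R j = if j ∈ R then !x j else x j := rfl

lemma flS_empty (x : α → Bool) : flS x ∅ = x := by
  ext j; simp [flS_apply]

lemma flS_insert (x : α → Bool) {R : Finset α} {i : α} (hi : i ∉ R) :
    flS x (insert i R) = fl (flS x R) i := by
  ext j
  rw [fl_apply, flS_apply, flS_apply]
  by_cases h : j = i
  · subst h; simp [hi]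
  · simp [h]

@[simp] lemma flS_flS (x : α → Bool) (R : Finset α) : flS (flS x R) R = x := by
  ext j
  rw [flS_apply, flS_apply]
  split_ifs <;> simp

/-- The change of the coordinates in `R` is an involution. -/
def flSE (R : Finset α) : (α → Bool) ≃ (α → Bool) where
  toFun x := flS x R
  invFun x := flS x R
  left_inv x := flS_flS x R
  right_inv x := flS_flS x R

lemma flS_inj {x : α → Bool} {R R' : Finset α} (h : flS x R = flS x R') : R = R' := by
  ext j
  have := congrFun h j
  rw [flS_apply, flS_apply] at this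
  by_cases h1 : j ∈ R <;> by_cases h2 : j ∈ R' <;> simp [h1, h2] at this ⊢

lemma fl_inl (y : α → Bool) (z : β → Bool) (i : α) :
    fl (Sum.elim y z) (Sum.inl i) = Sum.elim (fl y i) z := by
  ext j
  rcases j with j | j
  · simp only [fl_apply, Sum.elim_inl, Sum.inl.injEq]
  · simp only [fl_apply, Sum.elim_inr, reduceCtorEq, if_false]

lemma fl_inr (y : α → Bool) (z : β → Bool) (i : β) :
    fl (Sum.elim y z) (Sum.inr i) = Sum.elim y (fl z i) := by
  ext j
  rcases j with j | j
  · simp only [fl_apply, Sum.elim_inl, reduceCtorEq, if_false]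
  · simp only [fl_apply, Sum.elim_inr, Sum.inr.injEq]

variable [Fintype α] [Fintype β]

lemma av_fl (i : α) (f : (α → Bool) → ℝ) : av (fun x => f (fl x i)) = av f :=
  av_equiv (flE i) f

lemma av_flS (R : Finset α) (f : (α → Bool) → ℝ) : av (fun x => f (flS x R)) = av f :=
  av_equiv (flSE R) f

lemma sum_fl (i : α) (f : (α → Bool) → ℝ) : ∑ x, f (fl x i) = ∑ x, f x :=
  Equiv.sum_comp (flE i) f

/-- Functions on a sum of index types. -/
lemma av_sumArrow (f : (α ⊕ β → Bool) → ℝ) :
    av f = av fun p : (α → Bool) × (β → Bool) => f (Sum.elim p.1 p.2) := by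
  rw [← av_equiv (Equiv.sumArrowEquivProdArrow α β Bool).symm f]
  rfl

lemma hammingDist_fl (x : α → Bool) (i : α) : hammingDist x (fl x i) = 1 := by
  unfold hammingDist
  rw [card_eq_one]
  refine ⟨i, ?_⟩
  ext j
  rw [mem_filter, mem_singleton, fl_apply]
  by_cases h : j = i
  · subst h; simp
  · simp [h]

lemma hammingDist_fl_fl (x y : α → Bool) (i : α) :
    hammingDist (fl x i) (fl y i) = hammingDist x y := by
  unfold hammingDist
  congr 1
  ext j
  rw [mem_filter, mem_filter, fl_apply, fl_apply]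
  by_cases h : j = i
  · subst h; simp
  · simp [h]

lemma hammingDist_flS (x : α → Bool) (R : Finset α) : hammingDist x (flS x R) = R.card := by
  unfold hammingDist
  congr 1
  ext j
  rw [mem_filter, flS_apply]
  by_cases h : j ∈ R
  · simp [h]
  · simp [h]

lemma hammingDist_elim (y y' : α → Bool) (z z' : β → Bool) :
    hammingDist (Sum.elim y z) (Sum.elim y' z') = hammingDist y y' + hammingDist z z' := by
  unfold hammingDist
  rw [← card_disjSum]
  congr 1
  ext j
  rcases j with j | j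
  · simp
  · simp

/-- A step towards `y`. -/
lemma exists_fl {x y : α → Bool} {n : ℕ} (h : hammingDist x y = n + 1) :
    ∃ i, x i ≠ y i ∧ hammingDist (fl x i) y = n := by
  have h1 : 0 < (univ.filter fun i => x i ≠ y i).card := by
    show 0 < hammingDist x y
    omega
  obtain ⟨i, hi⟩ := card_pos.1 h1
  have hi' := (mem_filter.1 hi).2
  refine ⟨i, hi', ?_⟩
  have h2 : (univ.filter fun j => fl x i j ≠ y j) = (univ.filter fun j => x j ≠ y j).erase i := by
    ext j
    rw [mem_filter, mem_erase, mem_filter, fl_apply]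
    by_cases h : j = i
    · subst h
      cases hx : x j <;> cases hy : y j <;> simp [hx, hy] at hi' ⊢
    · simp [h]
  show (univ.filter fun j => fl x i j ≠ y j).card = n
  rw [h2, card_erase_of_mem hi]
  have : (univ.filter fun j => x j ≠ y j).card = n + 1 := h
  omega

/-- Lipschitz functions. -/
lemma Lip.le_dist {h : (α → Bool) → ℝ} (hh : Lip h) (x y : α → Bool) :
    |h x - h y| ≤ hammingDist x y := by
  generalize hn : hammingDist x y = n
  induction n generalizing x with
  | zero =>
    rw [hammingDist_eq_zero.1 hn]; simp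
  | succ n ih =>
    obtain ⟨i, -, hi⟩ := exists_fl hn
    have h1 := ih _ hi
    have h2 := hh x i
    have h3 : |h x - h y| ≤ |h (fl x i) - h x| + |h (fl x i) - h y| := by
      rw [show h x - h y = -(h (fl x i) - h x) + (h (fl x i) - h y) by ring]
      refine (abs_add_le _ _).trans ?_
      rw [abs_neg]
    push_cast
    linarith

lemma Lip.flS {h : (α → Bool) → ℝ} (hh : Lip h) (x : α → Bool) (R : Finset α) :
    |h (flS x R) - h x| ≤ R.card := by
  rw [abs_sub_comm]
  exact (hh.le_dist _ _).trans (le_of_eq (by rw [hammingDist_flS]))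

/-- The number of preimages as a density. -/
lemma sum_cnt_mul (f : (α → Bool) → (α → Bool)) (h : (α → Bool) → ℝ) :
    ∑ y, (cnt f y : ℝ) * h y = ∑ x, h (f x) := by
  have h1 : ∀ y, (cnt f y : ℝ) * h y = ∑ x, if f x = y then h y else 0 := by
    intro y
    rw [← sum_filter, sum_const, nsmul_eq_mul]
    rfl
  rw [sum_congr rfl fun y _ => h1 y, sum_comm]
  refine sum_congr rfl fun x _ => ?_
  rw [sum_ite_eq]
  simp

lemma av_cnt_mul (f : (α → Bool) → (α → Bool)) (h : (α → Bool) → ℝ) :
    av (fun y => (cnt f y : ℝ) * h y) = av (fun x => h (f x)) := by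
  unfold av; rw [sum_cnt_mul]

lemma av_cnt (f : (α → Bool) → (α → Bool)) : av (fun y => (cnt f y : ℝ)) = 1 := by
  have := av_cnt_mul f (fun _ => 1)
  simp only [mul_one, av_const] at this
  exact this

end Flip

section Run

variable {α : Type} [DecidableEq α] {Q : ℕ} {a : ℕ → α → (α → Bool) → ℕ}

lemma run_zero (ω : Fin 0 → α × Fin Q) (x : α → Bool) : run a 0 ω x = x := rfl

/-- The last step. -/
lemma run_snoc (K : ℕ) (ω : Fin K → α × Fin Q) (s : α × Fin Q) (x : α → Bool) :
    run a (K + 1) (Fin.snoc (α := fun _ => α × Fin Q) ω s) x = step (a K) s (run a K ω x) := by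
  show step (a K) (Fin.snoc (α := fun _ => α × Fin Q) ω s (Fin.last K))
    (run a K (fun k => Fin.snoc (α := fun _ => α × Fin Q) ω s k.castSucc) x) = _
  simp only [Fin.snoc_last, Fin.snoc_castSucc]

/-- The first step. -/
lemma run_cons (K : ℕ) (ω : Fin K → α × Fin Q) (s : α × Fin Q) (x : α → Bool) :
    run a (K + 1) (Fin.cons (α := fun _ => α × Fin Q) s ω) x =
      run (fun k => a (k + 1)) K ω (step (a 0) s x) := by
  induction K with
  | zero => rfl
  | succ K ih =>
    have h1 : Fin.cons (α := fun _ => α × Fin Q) s ω =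
        Fin.snoc (α := fun _ => α × Fin Q)
          (Fin.cons (α := fun _ => α × Fin Q) s (fun k : Fin K => ω k.castSucc)) (ω (Fin.last K)) := by
      have h2 := Fin.cons_snoc_eq_snoc_cons (β := α × Fin Q) s
        (fun k : Fin K => ω k.castSucc) (ω (Fin.last K))
      rw [← h2]
      congr 1
      exact (Fin.snoc_init_self (α := fun _ => α × Fin Q) ω).symm
    rw [h1, run_snoc, ih]
    show _ = step (a (K + 1)) (ω (Fin.last K)) (run (fun k => a (k + 1)) K (fun k => ω k.castSucc) _)
    rfl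

end Run

end Pool.Agent.STR
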